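import Pool.Agent.R745.CDN.Defs

/-! MP_990a44_co, `N_final 7` (task F7 of helper745). -/

set_option autoImplicit false

namespace R745CD

namespace F7

theorem lin2 {A B C u v u0 u1 v0 v1 : ℝ} (hu0 : u0 ≤ u) (hu1 : u ≤ u1) (hv0 : v0 ≤ v) (hv1 : v ≤ v1)
    (h00 : 0 < A * u0 + B * v0 + C) (h01 : 0 < A * u0 + B * v1 + C)
    (h10 : 0 < A * u1 + B * v0 + C) (h11 : 0 < A * u1 + B * v1 + C) : 0 < A * u + B * v + C := by
  rcases le_total 0 A with hA | hA <;> rcases le_total 0 B with hB | hB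
  · linarith [mul_le_mul_of_nonneg_left hu0 hA, mul_le_mul_of_nonneg_left hv0 hB]
  · linarith [mul_le_mul_of_nonneg_left hu0 hA, mul_le_mul_of_nonpos_left hv1 hB]
  · linarith [mul_le_mul_of_nonpos_left hu1 hA, mul_le_mul_of_nonneg_left hv0 hB]
  · linarith [mul_le_mul_of_nonpos_left hu1 hA, mul_le_mul_of_nonpos_left hv1 hB]

/-- one improvement step: `z (1 - n w) ≤ m`, `w ≤ W` give `z ≤ u m` and `z ≤ U` -/
theorem step {z w m : ℝ} (n W u : ℝ) (hn : 0 ≤ n) (hz : 0 ≤ z) (hm0 : 0 < m)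
    (h : z * (1 - n * w) ≤ m) (hw : w ≤ W) (hu0 : 0 ≤ u) (hu : 1 ≤ u * (1 - n * W)) :
    z ≤ u * m := by
  have hs : 0 < 1 - n * W := by
    by_contra hc
    push Not at hc
    have := mul_nonpos_of_nonneg_of_nonpos hu0 hc
    linarith
  have h1 : z * (1 - n * W) ≤ z * (1 - n * w) := by
    apply mul_le_mul_of_nonneg_left _ hz
    have := mul_le_mul_of_nonneg_left hw hn
    linarith
  have h2 : m ≤ u * (1 - n * W) * m := by
    have := mul_le_mul_of_nonneg_right hu hm0.le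
    linarith
  have h3 : z * (1 - n * W) ≤ (u * m) * (1 - n * W) := by linarith
  exact le_of_mul_le_mul_right h3 hs

/-- the vertex argument -/
theorem vertex {l k L K e1 e2 e3 e4 c m z w x y cz cw dz dw q : ℝ} (hm : 0 < m) (hmq : q * m ≤ 1)
    (hq : 0 < q)
    (h1 : 0 ≤ e1) (h2 : 0 ≤ e2) (h3 : 0 ≤ e3) (h4 : 0 ≤ e4)
    (hz0 : m ≤ z) (hz1 : z ≤ cz * m) (hw0 : m ≤ w) (hw1 : w ≤ cw * m)
    (hx0 : 0 ≤ x) (hx1 : x ≤ dz * m) (hy0 : 0 ≤ y) (hy1 : y ≤ dw * m)
    (hF : l * z + k * w + L * x + K * y - e1 * (z * w) - e2 * (z * y) - e3 * (x * w)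
      - e4 * (x * y) ≤ c * m)
    (V : ∀ u v s t : ℝ, (u = 1 ∨ u = cz) → (v = 0 ∨ v = dz) → (s = 1 ∨ s = cw) →
      (t = 0 ∨ t = dw) →
      c < l * u + k * s + L * v + K * t - (e1 * (u * s) + e2 * (u * t) + e3 * (v * s)
        + e4 * (v * t)) / q) : False := by
  obtain ⟨z, rfl⟩ : ∃ z', z = m * z' := ⟨z / m, by field_simp⟩
  obtain ⟨w, rfl⟩ : ∃ z', w = m * z' := ⟨w / m, by field_simp⟩
  obtain ⟨x, rfl⟩ : ∃ z', x = m * z' := ⟨x / m, by field_simp⟩
  obtain ⟨y, rfl⟩ : ∃ z', y = m * z' := ⟨y / m, by field_simp⟩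
  have hz0' : 1 ≤ z := le_of_mul_le_mul_left (a := m) (by linarith) hm
  have hw0' : 1 ≤ w := le_of_mul_le_mul_left (a := m) (by linarith) hm
  have hx0' : 0 ≤ x := le_of_mul_le_mul_left (a := m) (by linarith) hm
  have hy0' : 0 ≤ y := le_of_mul_le_mul_left (a := m) (by linarith) hm
  have hz1' : z ≤ cz := le_of_mul_le_mul_left (a := m) (by linarith) hm
  have hw1' : w ≤ cw := le_of_mul_le_mul_left (a := m) (by linarith) hm
  have hx1' : x ≤ dz := le_of_mul_le_mul_left (a := m) (by linarith) hm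
  have hy1' : y ≤ dw := le_of_mul_le_mul_left (a := m) (by linarith) hm
  set B : ℝ := e1 * (z * w) + e2 * (z * y) + e3 * (x * w) + e4 * (x * y) with hB
  have hB0 : 0 ≤ B := by positivity
  have hF' : l * z + k * w + L * x + K * y - m * B ≤ c := by
    have : m * (l * z + k * w + L * x + K * y - m * B) ≤ m * c := by
      rw [hB]; linarith
    exact le_of_mul_le_mul_left this hm
  have hmB : m * B ≤ B / q := by
    rw [le_div_iff₀ hq]
    linarith [mul_le_mul_of_nonneg_right hmq hB0]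
  have key : ∀ u v : ℝ, (u = 1 ∨ u = cz) → (v = 0 ∨ v = dz) →
      0 < (k - (e1 * u + e3 * v) / q) * w + (K - (e2 * u + e4 * v) / q) * y
        + (l * u + L * v - c) := by
    intro u v hu hv
    apply lin2 hw0' hw1' hy0' hy1'
    · have := V u v 1 0 hu hv (Or.inl rfl) (Or.inl rfl)
      have e : (k - (e1 * u + e3 * v) / q) * 1 + (K - (e2 * u + e4 * v) / q) * 0
        + (l * u + L * v - c) = l * u + k * 1 + L * v + K * 0 - (e1 * (u * 1) + e2 * (u * 0)
          + e3 * (v * 1) + e4 * (v * 0)) / q - c := by ring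
      rw [e]; linarith
    · have := V u v 1 dw hu hv (Or.inl rfl) (Or.inr rfl)
      have e : (k - (e1 * u + e3 * v) / q) * 1 + (K - (e2 * u + e4 * v) / q) * dw
        + (l * u + L * v - c) = l * u + k * 1 + L * v + K * dw - (e1 * (u * 1) + e2 * (u * dw)
          + e3 * (v * 1) + e4 * (v * dw)) / q - c := by ring
      rw [e]; linarith
    · have := V u v cw 0 hu hv (Or.inr rfl) (Or.inl rfl)
      have e : (k - (e1 * u + e3 * v) / q) * cw + (K - (e2 * u + e4 * v) / q) * 0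
        + (l * u + L * v - c) = l * u + k * cw + L * v + K * 0 - (e1 * (u * cw) + e2 * (u * 0)
          + e3 * (v * cw) + e4 * (v * 0)) / q - c := by ring
      rw [e]; linarith
    · have := V u v cw dw hu hv (Or.inr rfl) (Or.inr rfl)
      have e : (k - (e1 * u + e3 * v) / q) * cw + (K - (e2 * u + e4 * v) / q) * dw
        + (l * u + L * v - c) = l * u + k * cw + L * v + K * dw - (e1 * (u * cw) + e2 * (u * dw)
          + e3 * (v * cw) + e4 * (v * dw)) / q - c := by ring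
      rw [e]; linarith
  have fin : 0 < (l - (e1 * w + e2 * y) / q) * z + (L - (e3 * w + e4 * y) / q) * x
        + (k * w + K * y - c) := by
    apply lin2 hz0' hz1' hx0' hx1'
    · have := key 1 0 (Or.inl rfl) (Or.inl rfl)
      have e : (l - (e1 * w + e2 * y) / q) * 1 + (L - (e3 * w + e4 * y) / q) * 0
        + (k * w + K * y - c) = (k - (e1 * 1 + e3 * 0) / q) * w + (K - (e2 * 1 + e4 * 0) / q) * y
        + (l * 1 + L * 0 - c) := by ring
      rw [e]; exact this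
    · have := key 1 dz (Or.inl rfl) (Or.inr rfl)
      have e : (l - (e1 * w + e2 * y) / q) * 1 + (L - (e3 * w + e4 * y) / q) * dz
        + (k * w + K * y - c) = (k - (e1 * 1 + e3 * dz) / q) * w
        + (K - (e2 * 1 + e4 * dz) / q) * y + (l * 1 + L * dz - c) := by ring
      rw [e]; exact this
    · have := key cz 0 (Or.inr rfl) (Or.inl rfl)
      have e : (l - (e1 * w + e2 * y) / q) * cz + (L - (e3 * w + e4 * y) / q) * 0
        + (k * w + K * y - c) = (k - (e1 * cz + e3 * 0) / q) * w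
        + (K - (e2 * cz + e4 * 0) / q) * y + (l * cz + L * 0 - c) := by ring
      rw [e]; exact this
    · have := key cz dz (Or.inr rfl) (Or.inr rfl)
      have e : (l - (e1 * w + e2 * y) / q) * cz + (L - (e3 * w + e4 * y) / q) * dz
        + (k * w + K * y - c) = (k - (e1 * cz + e3 * dz) / q) * w
        + (K - (e2 * cz + e4 * dz) / q) * y + (l * cz + L * dz - c) := by ring
      rw [e]; exact this
  have e : (l - (e1 * w + e2 * y) / q) * z + (L - (e3 * w + e4 * y) / q) * x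
        + (k * w + K * y - c) = l * z + k * w + L * x + K * y - B / q - c := by
    rw [hB]; ring
  rw [e] at fin
  linarith

/-- the general inequality -/
theorem ineq {Q k l K L z w x y p r Z10 Z11 W10 W11 aj bj : ℝ}
    (hQ : 0 ≤ Q)
    (hz0 : 0 ≤ z) (hw0 : 0 ≤ w) (hx0 : 0 ≤ x) (hy0 : 0 ≤ y)
    (haj : aj ≤ k * z) (hbj : bj ≤ l * w)
    (V1 : p * (r + 2 * Q * (W10 + y) + Q ^ 2 * W11) ≤ 1)
    (V2 : r * (p + 2 * Q * (Z10 + x) + Q ^ 2 * Z11) ≤ 1)
    (hz : z ≤ Z10 + K * Z11) (hw : w ≤ W10 + L * W11)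
    (hp : 1 - aj - K * x ≤ p) (hr : 1 - bj - L * y ≤ r)
    (hp0 : 0 ≤ 1 - k * z - K * x) (hr0 : 0 ≤ 1 - l * w - L * y) :
    (Q - k) * z + (Q - l) * w + (Q - K) * x + (Q - L) * y
      - (Q * (k + l) - k * l) * (z * w) - (Q * (k + L) - k * L) * (z * y)
      - (Q * (K + l) - K * l) * (x * w) - (Q * (K + L) - K * L) * (x * y) ≤
      (Q * L - Q ^ 2 / 2) * (p * W11) + (Q * K - Q ^ 2 / 2) * (r * Z11) := by
  set p0 := 1 - k * z - K * x with hp0'
  set r0 := 1 - l * w - L * y with hr0'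
  have hpp : p0 ≤ p := by linarith
  have hrr : r0 ≤ r := by linarith
  have hp1 : 0 ≤ p := by linarith
  have hr1 : 0 ≤ r := by linarith
  have e1 : 0 ≤ Q * (p * (W10 + L * W11 - w)) :=
    mul_nonneg hQ (mul_nonneg hp1 (by linarith))
  have e2 : 0 ≤ Q * (r * (Z10 + K * Z11 - z)) :=
    mul_nonneg hQ (mul_nonneg hr1 (by linarith))
  have e3 : p * r + Q * (p * (w + y)) + Q * (r * (z + x)) ≤
      1 + (Q * L - Q ^ 2 / 2) * (p * W11) + (Q * K - Q ^ 2 / 2) * (r * Z11) := by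
    linarith
  have e4 : p0 * r0 ≤ p * r := mul_le_mul hpp hrr hr0 hp1
  have e5 : Q * (p0 * (w + y)) ≤ Q * (p * (w + y)) :=
    mul_le_mul_of_nonneg_left (mul_le_mul_of_nonneg_right hpp (by linarith)) hQ
  have e6 : Q * (r0 * (z + x)) ≤ Q * (r * (z + x)) :=
    mul_le_mul_of_nonneg_left (mul_le_mul_of_nonneg_right hrr (by linarith)) hQ
  have e7 : p0 * r0 + Q * (p0 * (w + y)) + Q * (r0 * (z + x)) = 1 +
      ((Q - k) * z + (Q - l) * w + (Q - K) * x + (Q - L) * y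
      - (Q * (k + l) - k * l) * (z * w) - (Q * (k + L) - k * L) * (z * y)
      - (Q * (K + l) - K * l) * (x * w) - (Q * (K + L) - K * L) * (x * y)) := by
    rw [hp0', hr0']; ring
  linarith

/-- the numerical part: bounds for the four variables and the vertex inequality give a
contradiction -/
theorem finish {q : ℝ} (Q l L cz cw dz dw c m z w x y p r Z10 Z11 W10 W11 aj bj : ℝ)
    (hQ : 0 < Q) (hq : 0 < q) (hm0 : 0 < m) (hm : q * m ≤ 1)
    (hz0 : m ≤ z) (hz1 : z ≤ cz * m) (hw0 : m ≤ w) (hw1 : w ≤ cw * m)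
    (hx0 : 0 ≤ x) (hx1 : x ≤ dz * m) (hy0 : 0 ≤ y) (hy1 : y ≤ dw * m)
    (haj : aj ≤ (Q - l) * z) (hbj : bj ≤ l * w)
    (V1 : p * (r + 2 * Q * (W10 + y) + Q ^ 2 * W11) ≤ 1)
    (V2 : r * (p + 2 * Q * (Z10 + x) + Q ^ 2 * Z11) ≤ 1)
    (hz : z ≤ Z10 + (Q - L) * Z11) (hw : w ≤ W10 + L * W11)
    (hp : 1 - aj - (Q - L) * x ≤ p) (hr : 1 - bj - L * y ≤ r)
    (hZ11 : 0 ≤ Z11) (hW11 : 0 ≤ W11)
    (hU : q * (p * W11) ≤ m) (hV : q * (r * Z11) ≤ m)
    (hl0 : 0 ≤ l) (hl1 : l ≤ Q) (hL0 : 0 ≤ L) (hL1 : L ≤ Q)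
    (hp0 : (Q - l) * cz + (Q - L) * dz ≤ q) (hr0 : l * cw + L * dw ≤ q)
    (hc1 : Q * (2 * L - Q) / 2 ≤ c * q) (hc2 : - (Q * (2 * L - Q) / 2) ≤ c * q)
    (V : ∀ u v s t : ℝ, (u = 1 ∨ u = cz) → (v = 0 ∨ v = dz) → (s = 1 ∨ s = cw) →
      (t = 0 ∨ t = dw) →
      c < l * u + (Q - l) * s + L * v + (Q - L) * t - ((Q ^ 2 - (Q - l) * l) * (u * s)
        + (Q * (Q - l + L) - (Q - l) * L) * (u * t) + (Q * (Q - L + l) - (Q - L) * l) * (v * s)
        + (Q ^ 2 - (Q - L) * L) * (v * t)) / q) : False := by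
  have a1 : (Q - l) * z ≤ (Q - l) * (cz * m) :=
    mul_le_mul_of_nonneg_left hz1 (sub_nonneg.2 hl1)
  have a2 : (Q - L) * x ≤ (Q - L) * (dz * m) :=
    mul_le_mul_of_nonneg_left hx1 (sub_nonneg.2 hL1)
  have a3 : l * w ≤ l * (cw * m) := mul_le_mul_of_nonneg_left hw1 hl0
  have a4 : L * y ≤ L * (dw * m) := mul_le_mul_of_nonneg_left hy1 hL0
  have hp0' : 0 ≤ 1 - (Q - l) * z - (Q - L) * x := by
    have := mul_le_mul_of_nonneg_right hp0 hm0.le
    linarith
  have hr0' : 0 ≤ 1 - l * w - L * y := by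
    have := mul_le_mul_of_nonneg_right hr0 hm0.le
    linarith
  have hpn : 0 ≤ p := by linarith
  have hrn : 0 ≤ r := by linarith
  have hE := ineq (Q := Q) (k := Q - l) (l := l) (K := Q - L) (L := L) hQ.le (by linarith)
    (by linarith) hx0 hy0 haj hbj V1 V2 hz hw hp hr hp0' hr0'
  have hU0 : 0 ≤ p * W11 := mul_nonneg hpn hW11
  have hV0 : 0 ≤ r * Z11 := mul_nonneg hrn hZ11
  have hR : (Q * L - Q ^ 2 / 2) * (p * W11) + (Q * (Q - L) - Q ^ 2 / 2) * (r * Z11) ≤ c * m := by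
    have hc0 : 0 ≤ c * q := by
      rcases le_total 0 (Q * (2 * L - Q) / 2) with h | h <;> linarith
    have e : (Q * L - Q ^ 2 / 2) * (p * W11) + (Q * (Q - L) - Q ^ 2 / 2) * (r * Z11) =
        (Q * (2 * L - Q) / 2) * (p * W11 - r * Z11) := by ring
    rw [e]
    have h1 : (Q * (2 * L - Q) / 2) * (p * W11 - r * Z11) * q ≤ c * m * q := by
      rcases le_total 0 (Q * (2 * L - Q) / 2) with h | h
      · have : (Q * (2 * L - Q) / 2) * (q * (p * W11 - r * Z11)) ≤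
            (Q * (2 * L - Q) / 2) * m :=
          mul_le_mul_of_nonneg_left (by linarith [mul_nonneg hq.le hV0]) h
        have h3 : (Q * (2 * L - Q) / 2) * m ≤ c * q * m := mul_le_mul_of_nonneg_right hc1 hm0.le
        linarith
      · have : (-(Q * (2 * L - Q) / 2)) * (q * (r * Z11 - p * W11)) ≤
            (-(Q * (2 * L - Q) / 2)) * m :=
          mul_le_mul_of_nonneg_left (by linarith [mul_nonneg hq.le hU0]) (by linarith)
        have h3 : (-(Q * (2 * L - Q) / 2)) * m ≤ c * q * m := mul_le_mul_of_nonneg_right hc2 hm0.le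
        linarith
    exact le_of_mul_le_mul_right h1 hq
  have i1 : 0 ≤ Q * (Q - l) := mul_nonneg hQ.le (sub_nonneg.2 hl1)
  have i2 : 0 ≤ Q * (Q - L) := mul_nonneg hQ.le (sub_nonneg.2 hL1)
  have i3 : 0 ≤ l * L := mul_nonneg hl0 hL0
  have g1 : 0 ≤ Q ^ 2 - (Q - l) * l := by linarith [sq_nonneg l]
  have g2 : 0 ≤ Q * (Q - l + L) - (Q - l) * L := by linarith
  have g3 : 0 ≤ Q * (Q - L + l) - (Q - L) * l := by linarith
  have g4 : 0 ≤ Q ^ 2 - (Q - L) * L := by linarith [sq_nonneg L]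
  refine vertex (l := l) (k := Q - l) (L := L) (K := Q - L) hm0 hm hq g1 g2 g3 g4
    hz0 hz1 hw0 hw1 hx0 hx1 hy0 hy1 (?_ : _ ≤ c * m) V
  have e : l * z + (Q - l) * w + L * x + (Q - L) * y - (Q ^ 2 - (Q - l) * l) * (z * w)
      - (Q * (Q - l + L) - (Q - l) * L) * (z * y) - (Q * (Q - L + l) - (Q - L) * l) * (x * w)
      - (Q ^ 2 - (Q - L) * L) * (x * y) =
      (Q - (Q - l)) * z + (Q - l) * w + (Q - (Q - L)) * x + (Q - L) * y
      - (Q * (Q - l + l) - (Q - l) * l) * (z * w) - (Q * (Q - l + L) - (Q - l) * L) * (z * y)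
      - (Q * (Q - L + l) - (Q - L) * l) * (x * w)
      - (Q * (Q - L + L) - (Q - L) * L) * (x * y) := by ring
  rw [e]
  exact hE.trans hR

end F7

end R745CD
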