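import Pool.Agent.R120.CDN.F7

/-! MP_990a44_co, `N_final 7` (task F7 of helper745). -/

set_option autoImplicit false

namespace R745CD

namespace F7

/-- bounds at `j` for `Q = 7` -/
theorem bj7 {m z w bj aj l : ℝ} (hm0 : 0 < m) (hm : 16 * m ≤ 1) (hz : 0 < z) (hw : 0 < w)
    (hz1 : m < z) (hw1 : m < w)
    (hl : l = 1 ∨ l = 2 ∨ l = 3 ∨ l = 4 ∨ l = 5 ∨ l = 6)
    (haj2 : aj ≤ 1 / 2) (hbj2 : bj ≤ 1 / 2) (haj : aj ≤ (7 - l) * z) (hbj : bj ≤ l * w)
    (hJ1 : z * (1 - bj + w) ≤ m) (hJ2 : w * (1 - aj + z) ≤ m) :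
    (l = 2 ∧ z ≤ 1.1 * m ∧ w ≤ 1.38 * m) ∨ (l = 3 ∧ z ≤ 1.2 * m ∧ w ≤ 1.29 * m) ∨
    (l = 4 ∧ z ≤ 1.29 * m ∧ w ≤ 1.2 * m) ∨ (l = 5 ∧ z ≤ 1.38 * m ∧ w ≤ 1.1 * m) := by
  have hz9 : z ≤ 1 / 9 := by
    have h1 : z * (1 / 2 + m) ≤ m :=
      le_trans (mul_le_mul_of_nonneg_left (by linarith) hz.le) hJ1
    by_contra hc
    push Not at hc
    have h2 : (1 / 9) * (1 / 2 + m) < z * (1 / 2 + m) :=
      mul_lt_mul_of_pos_right hc (by linarith)
    linarith
  have hw9 : w ≤ 1 / 9 := by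
    have h1 : w * (1 / 2 + m) ≤ m :=
      le_trans (mul_le_mul_of_nonneg_left (by linarith) hw.le) hJ2
    by_contra hc
    push Not at hc
    have h2 : (1 / 9) * (1 / 2 + m) < w * (1 / 2 + m) :=
      mul_lt_mul_of_pos_right hc (by linarith)
    linarith
  have hz2 : z * (1 - (l - 1) * w) ≤ m :=
    le_trans (mul_le_mul_of_nonneg_left (by linarith) hz.le) hJ1
  have hw2 : w * (1 - (6 - l) * z) ≤ m :=
    le_trans (mul_le_mul_of_nonneg_left (by linarith) hw.le) hJ2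
  rcases hl with rfl | rfl | rfl | rfl | rfl | rfl
  · exfalso
    have : z * (1 - (1 - 1) * w) = z := by ring
    rw [this] at hz2
    linarith
  · left
    have a1 : z ≤ 1.126 * m := step (2 - 1) (1 / 9) _ (by norm_num) hz.le hm0 hz2 hw9 (by norm_num)
      (by norm_num)
    have a2 : w ≤ 1.392 * m := step (6 - 2) 0.0704 _ (by norm_num) hw.le hm0 hw2 (by linarith)
      (by norm_num) (by norm_num)
    have a3 : z ≤ 1.096 * m := step (2 - 1) 0.087 _ (by norm_num) hz.le hm0 hz2 (by linarith)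
      (by norm_num) (by norm_num)
    have a4 : w ≤ 1.38 * m := step (6 - 2) 0.0685 _ (by norm_num) hw.le hm0 hw2 (by linarith)
      (by norm_num) (by norm_num)
    exact ⟨rfl, by linarith, a4⟩
  · right; left
    have a1 : z ≤ 1.286 * m := step (3 - 1) (1 / 9) _ (by norm_num) hz.le hm0 hz2 hw9 (by norm_num)
      (by norm_num)
    have a2 : w ≤ 1.318 * m := step (6 - 3) 0.0804 _ (by norm_num) hw.le hm0 hw2 (by linarith)
      (by norm_num) (by norm_num)
    have a3 : z ≤ 1.198 * m := step (3 - 1) 0.0824 _ (by norm_num) hz.le hm0 hz2 (by linarith)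
      (by norm_num) (by norm_num)
    have a4 : w ≤ 1.29 * m := step (6 - 3) 0.0749 _ (by norm_num) hw.le hm0 hw2 (by linarith)
      (by norm_num) (by norm_num)
    exact ⟨rfl, by linarith, a4⟩
  · right; right; left
    have a1 : w ≤ 1.286 * m := step (6 - 4) (1 / 9) _ (by norm_num) hw.le hm0 hw2 hz9 (by norm_num)
      (by norm_num)
    have a2 : z ≤ 1.318 * m := step (4 - 1) 0.0804 _ (by norm_num) hz.le hm0 hz2 (by linarith)
      (by norm_num) (by norm_num)
    have a3 : w ≤ 1.198 * m := step (6 - 4) 0.0824 _ (by norm_num) hw.le hm0 hw2 (by linarith)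
      (by norm_num) (by norm_num)
    have a4 : z ≤ 1.29 * m := step (4 - 1) 0.0749 _ (by norm_num) hz.le hm0 hz2 (by linarith)
      (by norm_num) (by norm_num)
    exact ⟨rfl, a4, by linarith⟩
  · right; right; right
    have a1 : w ≤ 1.126 * m := step (6 - 5) (1 / 9) _ (by norm_num) hw.le hm0 hw2 hz9 (by norm_num)
      (by norm_num)
    have a2 : z ≤ 1.392 * m := step (5 - 1) 0.0704 _ (by norm_num) hz.le hm0 hz2 (by linarith)
      (by norm_num) (by norm_num)
    have a3 : w ≤ 1.096 * m := step (6 - 5) 0.087 _ (by norm_num) hw.le hm0 hw2 (by linarith)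
      (by norm_num) (by norm_num)
    have a4 : z ≤ 1.38 * m := step (5 - 1) 0.0685 _ (by norm_num) hz.le hm0 hz2 (by linarith)
      (by norm_num) (by norm_num)
    exact ⟨rfl, a4, by linarith⟩
  · exfalso
    have : w * (1 - (6 - 6) * z) = w := by ring
    rw [this] at hw2
    linarith

/-- bounds at `i` for `Q = 7` -/
theorem bi7 {m z w bi ai L : ℝ} (hm0 : 0 < m) (hm : 16 * m ≤ 1) (hz : 0 < z) (hw : 0 < w)
    (hL : L = 1 ∨ L = 2 ∨ L = 3 ∨ L = 4 ∨ L = 5 ∨ L = 6)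
    (hai2 : ai ≤ 1 / 2) (hbi2 : bi ≤ 1 / 2) (hai : ai ≤ (7 - L) * z) (hbi : bi ≤ L * w)
    (hI1 : z * (1 - bi) ≤ m) (hI2 : w * (1 - ai) ≤ m) :
    (L = 1 ∧ z ≤ 1.13 * m ∧ w ≤ 1.73 * m) ∨ (L = 2 ∧ z ≤ 1.27 * m ∧ w ≤ 1.66 * m) ∨
    (L = 3 ∧ z ≤ 1.42 * m ∧ w ≤ 1.55 * m) ∨ (L = 4 ∧ z ≤ 1.55 * m ∧ w ≤ 1.42 * m) ∨
    (L = 5 ∧ z ≤ 1.66 * m ∧ w ≤ 1.27 * m) ∨ (L = 6 ∧ z ≤ 1.73 * m ∧ w ≤ 1.13 * m) := by
  have hz8 : z ≤ 1 / 8 := by
    have h1 : z * (1 / 2) ≤ m := le_trans (mul_le_mul_of_nonneg_left (by linarith) hz.le) hI1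
    linarith
  have hw8 : w ≤ 1 / 8 := by
    have h1 : w * (1 / 2) ≤ m := le_trans (mul_le_mul_of_nonneg_left (by linarith) hw.le) hI2
    linarith
  have hz2 : z * (1 - L * w) ≤ m :=
    le_trans (mul_le_mul_of_nonneg_left (by linarith) hz.le) hI1
  have hw2 : w * (1 - (7 - L) * z) ≤ m :=
    le_trans (mul_le_mul_of_nonneg_left (by linarith) hw.le) hI2
  rcases hL with rfl | rfl | rfl | rfl | rfl | rfl
  · left
    have a1 : z ≤ 1.143 * m := step 1 (1 / 8) _ (by norm_num) hz.le hm0 hz2 hw8 (by norm_num)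
      (by norm_num)
    have a2 : w ≤ 1.751 * m := step (7 - 1) 0.07144 _ (by norm_num) hw.le hm0 hw2 (by linarith)
      (by norm_num) (by norm_num)
    have a3 : z ≤ 1.123 * m := step 1 0.10944 _ (by norm_num) hz.le hm0 hz2 (by linarith)
      (by norm_num) (by norm_num)
    have a4 : w ≤ 1.73 * m := step (7 - 1) 0.0702 _ (by norm_num) hw.le hm0 hw2 (by linarith)
      (by norm_num) (by norm_num)
    exact ⟨rfl, by linarith, a4⟩
  · right; left
    have a1 : z ≤ 1.334 * m := step 2 (1 / 8) _ (by norm_num) hz.le hm0 hz2 hw8 (by norm_num)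
      (by norm_num)
    have a2 : w ≤ 1.715 * m := step (7 - 2) 0.08338 _ (by norm_num) hw.le hm0 hw2 (by linarith)
      (by norm_num) (by norm_num)
    have a3 : z ≤ 1.273 * m := step 2 0.1072 _ (by norm_num) hz.le hm0 hz2 (by linarith)
      (by norm_num) (by norm_num)
    have a4 : w ≤ 1.662 * m := step (7 - 2) 0.0796 _ (by norm_num) hw.le hm0 hw2 (by linarith)
      (by norm_num) (by norm_num)
    have a5 : z ≤ 1.263 * m := step 2 0.10388 _ (by norm_num) hz.le hm0 hz2 (by linarith)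
      (by norm_num) (by norm_num)
    have a6 : w ≤ 1.66 * m := step (7 - 2) 0.07894 _ (by norm_num) hw.le hm0 hw2 (by linarith)
      (by norm_num) (by norm_num)
    exact ⟨rfl, by linarith, a6⟩
  · right; right; left
    have a1 : z ≤ 1.6 * m := step 3 (1 / 8) _ (by norm_num) hz.le hm0 hz2 hw8 (by norm_num)
      (by norm_num)
    have a2 : w ≤ 1.667 * m := step (7 - 3) 0.1 _ (by norm_num) hw.le hm0 hw2 (by linarith)
      (by norm_num) (by norm_num)
    have a3 : z ≤ 1.455 * m := step 3 0.1042 _ (by norm_num) hz.le hm0 hz2 (by linarith)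
      (by norm_num) (by norm_num)
    have a4 : w ≤ 1.572 * m := step (7 - 3) 0.09094 _ (by norm_num) hw.le hm0 hw2 (by linarith)
      (by norm_num) (by norm_num)
    have a5 : z ≤ 1.419 * m := step 3 0.09826 _ (by norm_num) hz.le hm0 hz2 (by linarith)
      (by norm_num) (by norm_num)
    have a6 : w ≤ 1.55 * m := step (7 - 3) 0.0887 _ (by norm_num) hw.le hm0 hw2 (by linarith)
      (by norm_num) (by norm_num)
    exact ⟨rfl, by linarith, a6⟩
  · right; right; right; left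
    have a1 : w ≤ 1.6 * m := step (7 - 4) (1 / 8) _ (by norm_num) hw.le hm0 hw2 hz8 (by norm_num)
      (by norm_num)
    have a2 : z ≤ 1.667 * m := step 4 0.1 _ (by norm_num) hz.le hm0 hz2 (by linarith)
      (by norm_num) (by norm_num)
    have a3 : w ≤ 1.455 * m := step (7 - 4) 0.1042 _ (by norm_num) hw.le hm0 hw2 (by linarith)
      (by norm_num) (by norm_num)
    have a4 : z ≤ 1.572 * m := step 4 0.09094 _ (by norm_num) hz.le hm0 hz2 (by linarith)
      (by norm_num) (by norm_num)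
    have a5 : w ≤ 1.419 * m := step (7 - 4) 0.09826 _ (by norm_num) hw.le hm0 hw2 (by linarith)
      (by norm_num) (by norm_num)
    have a6 : z ≤ 1.55 * m := step 4 0.0887 _ (by norm_num) hz.le hm0 hz2 (by linarith)
      (by norm_num) (by norm_num)
    exact ⟨rfl, a6, by linarith⟩
  · right; right; right; right; left
    have a1 : w ≤ 1.334 * m := step (7 - 5) (1 / 8) _ (by norm_num) hw.le hm0 hw2 hz8 (by norm_num)
      (by norm_num)
    have a2 : z ≤ 1.715 * m := step 5 0.08338 _ (by norm_num) hz.le hm0 hz2 (by linarith)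
      (by norm_num) (by norm_num)
    have a3 : w ≤ 1.273 * m := step (7 - 5) 0.1072 _ (by norm_num) hw.le hm0 hw2 (by linarith)
      (by norm_num) (by norm_num)
    have a4 : z ≤ 1.662 * m := step 5 0.0796 _ (by norm_num) hz.le hm0 hz2 (by linarith)
      (by norm_num) (by norm_num)
    have a5 : w ≤ 1.263 * m := step (7 - 5) 0.10388 _ (by norm_num) hw.le hm0 hw2 (by linarith)
      (by norm_num) (by norm_num)
    have a6 : z ≤ 1.66 * m := step 5 0.07894 _ (by norm_num) hz.le hm0 hz2 (by linarith)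
      (by norm_num) (by norm_num)
    exact ⟨rfl, a6, by linarith⟩
  · right; right; right; right; right
    have a1 : w ≤ 1.143 * m := step (7 - 6) (1 / 8) _ (by norm_num) hw.le hm0 hw2 hz8 (by norm_num)
      (by norm_num)
    have a2 : z ≤ 1.751 * m := step 6 0.07144 _ (by norm_num) hz.le hm0 hz2 (by linarith)
      (by norm_num) (by norm_num)
    have a3 : w ≤ 1.123 * m := step (7 - 6) 0.10944 _ (by norm_num) hw.le hm0 hw2 (by linarith)
      (by norm_num) (by norm_num)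
    have a4 : z ≤ 1.73 * m := step 6 0.0702 _ (by norm_num) hz.le hm0 hz2 (by linarith)
      (by norm_num) (by norm_num)
    exact ⟨rfl, a4, by linarith⟩

end F7

theorem tN_final7 : N_final 7 := by
  intro m k l K L aj bj zj wj ai bi zi wi p r Z10 Z01 Z11 W10 W01 W11 H hZ10 hZ01 hZ11 hW10 hW01
    hW11 V1 V2 hz hw hZi hWi hp hr hpW hrZ
  have hq : ((H825CD.qb 7 : ℕ) : ℝ) = 16 := by norm_num [H825CD.qb]
  rw [hq] at hpW hrZ
  have hm := H.hm
  rw [hq] at hm
  have hm0 := H.hm0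
  have hk1 : (1 : ℝ) ≤ k := by exact_mod_cast H.hk
  have hl1 : (1 : ℝ) ≤ l := by exact_mod_cast H.hl
  have hK1 : (1 : ℝ) ≤ K := by exact_mod_cast H.hK
  have hL1 : (1 : ℝ) ≤ L := by exact_mod_cast H.hL
  have hkl : (k : ℝ) ≤ 7 - l := by
    have : ((k + l : ℕ) : ℝ) ≤ 7 := by exact_mod_cast H.hkl
    push_cast at this; linarith
  have hKL : (K : ℝ) ≤ 7 - L := by
    have : ((K + L : ℕ) : ℝ) ≤ 7 := by exact_mod_cast H.hKL
    push_cast at this; linarith
  have hzj : 0 < zj := by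
    by_contra hc; push Not at hc
    have := H.haj; have := H.haj0
    have : (k : ℝ) * zj ≤ 0 := mul_nonpos_of_nonneg_of_nonpos (by linarith) hc
    linarith
  have hwj : 0 < wj := by
    by_contra hc; push Not at hc
    have := H.hbj; have := H.hbj0
    have : (l : ℝ) * wj ≤ 0 := mul_nonpos_of_nonneg_of_nonpos (by linarith) hc
    linarith
  have hzi : 0 < zi := by
    by_contra hc; push Not at hc
    have := H.hai; have := H.hai0
    have : (K : ℝ) * zi ≤ 0 := mul_nonpos_of_nonneg_of_nonpos (by linarith) hc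
    linarith
  have hwi : 0 < wi := by
    by_contra hc; push Not at hc
    have := H.hbi; have := H.hbi0
    have : (L : ℝ) * wi ≤ 0 := mul_nonpos_of_nonneg_of_nonpos (by linarith) hc
    linarith
  have haj : aj ≤ (7 - l) * zj := H.haj.trans (mul_le_mul_of_nonneg_right hkl hzj.le)
  have hbj := H.hbj
  have hai : ai ≤ (7 - L) * zi := H.hai.trans (mul_le_mul_of_nonneg_right hKL hzi.le)
  have hbi := H.hbi
  have hz' : zj ≤ Z10 + (7 - L) * Z11 := by
    have := mul_le_mul_of_nonneg_right hKL hZ11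
    linarith
  have hp' : 1 - aj - (7 - L) * Z01 ≤ p := by
    have := mul_le_mul_of_nonneg_right hKL hZ01
    linarith
  have hJ3 := H.hJ3
  norm_num at hJ3
  have hJ1 := H.hJ1
  have hJ2 := H.hJ2
  have haj2 := H.haj2
  have hbj2 := H.hbj2
  -- step 1
  have hz1 : m < zj := by
    -- 7 m < aj + bj (1 - aj), bj (1-aj) ≤ l wj (1-aj) ≤ l m
    have h1 : wj * (1 - aj) ≤ m := by
      have : 0 ≤ wj * zj := (mul_pos hwj hzj).le
      have e : wj * (1 - aj + zj) = wj * (1 - aj) + wj * zj := by ring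
      linarith
    have h2 : bj * (1 - aj) ≤ l * m := by
      have e1 : bj * (1 - aj) ≤ (l * wj) * (1 - aj) :=
        mul_le_mul_of_nonneg_right hbj (by linarith)
      have e2 : (l * wj) * (1 - aj) = l * (wj * (1 - aj)) := by ring
      have e3 : (l : ℝ) * (wj * (1 - aj)) ≤ l * m := mul_le_mul_of_nonneg_left h1 (by linarith)
      linarith
    have h3 : (7 - (l : ℝ)) * m < (7 - l) * zj := by
      have e : aj + bj - aj * bj = aj + bj * (1 - aj) := by ring
      linarith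
    have h4 : 0 < 7 - (l : ℝ) := by linarith
    exact lt_of_mul_lt_mul_left h3 h4.le
  have hw1 : m < wj := by
    have h1 : zj * (1 - bj) ≤ m := by
      have : 0 ≤ zj * wj := (mul_pos hzj hwj).le
      have e : zj * (1 - bj + wj) = zj * (1 - bj) + zj * wj := by ring
      linarith
    have h2 : aj * (1 - bj) ≤ (7 - l) * m := by
      have e1 : aj * (1 - bj) ≤ ((7 - l) * zj) * (1 - bj) :=
        mul_le_mul_of_nonneg_right haj (by linarith)
      have e2 : ((7 - l) * zj) * (1 - bj) = (7 - l) * (zj * (1 - bj)) := by ring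
      have e3 : (7 - (l : ℝ)) * (zj * (1 - bj)) ≤ (7 - l) * m :=
        mul_le_mul_of_nonneg_left h1 (by linarith)
      linarith
    have h3 : (l : ℝ) * m < l * wj := by
      have e : aj + bj - aj * bj = bj + aj * (1 - bj) := by ring
      linarith
    exact lt_of_mul_lt_mul_left h3 (by linarith)
  have hlc : (l : ℝ) = 1 ∨ (l : ℝ) = 2 ∨ (l : ℝ) = 3 ∨ (l : ℝ) = 4 ∨ (l : ℝ) = 5 ∨ (l : ℝ) = 6 := by
    have h1 := H.hk; have h2 := H.hl; have h3 := H.hkl
    have : l = 1 ∨ l = 2 ∨ l = 3 ∨ l = 4 ∨ l = 5 ∨ l = 6 := by omega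
    rcases this with h | h | h | h | h | h <;> subst h <;> simp
  have hLc : (L : ℝ) = 1 ∨ (L : ℝ) = 2 ∨ (L : ℝ) = 3 ∨ (L : ℝ) = 4 ∨ (L : ℝ) = 5 ∨ (L : ℝ) = 6 := by
    have h1 := H.hK; have h2 := H.hL; have h3 := H.hKL
    have : L = 1 ∨ L = 2 ∨ L = 3 ∨ L = 4 ∨ L = 5 ∨ L = 6 := by omega
    rcases this with h | h | h | h | h | h <;> subst h <;> simp
  have HJ := F7.bj7 hm0 hm hzj hwj hz1 hw1 hlc haj2 hbj2 haj hbj hJ1 hJ2
  have HI := F7.bi7 hm0 hm hzi hwi hLc H.hai2 H.hbi2 hai hbi H.hI1 H.hI2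
  norm_num at V1 V2
  have V1' : p * (r + 2 * 7 * (W10 + W01) + 7 ^ 2 * W11) ≤ 1 := by norm_num; exact V1
  have V2' : r * (p + 2 * 7 * (Z10 + Z01) + 7 ^ 2 * Z11) ≤ 1 := by norm_num; exact V2
  generalize (l : ℝ) = l' at *
  generalize (L : ℝ) = L' at *
  rcases HJ with ⟨rfl, c1, c2⟩ | ⟨rfl, c1, c2⟩ | ⟨rfl, c1, c2⟩ | ⟨rfl, c1, c2⟩ <;>
  rcases HI with ⟨rfl, d1, d2⟩ | ⟨rfl, d1, d2⟩ | ⟨rfl, d1, d2⟩ | ⟨rfl, d1, d2⟩ |
    ⟨rfl, d1, d2⟩ | ⟨rfl, d1, d2⟩ <;>
  exact F7.finish 7 _ _ _ _ _ _ (|7 * (2 * _ - 7) / 2| / 16) m zj wj Z01 W01 p r Z10 Z11 W10 W11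
    aj bj (by norm_num) (by norm_num : (0 : ℝ) < 16) hm0 hm hz1.le c1 hw1.le c2 hZ01
    (hZi.trans d1) hW01 (hWi.trans d2) haj hbj V1' V2' hz' hw hp' hr hZ11 hW11 hpW hrZ
    (by norm_num) (by norm_num) (by norm_num) (by norm_num) (by norm_num) (by norm_num)
    (by rw [div_mul_cancel₀ _ (by norm_num)]; exact le_abs_self _)
    (by rw [div_mul_cancel₀ _ (by norm_num)]; exact neg_le_abs _)
    (by rintro u v s t (rfl | rfl) (rfl | rfl) (rfl | rfl) (rfl | rfl) <;> norm_num [abs_of_pos, abs_of_neg])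

end R745CD
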